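import Pool.Agent.J6H49.KX.World
import Pool.Agent.H620R2.Gauge2.V8

/-!
# Unambiguous time is space, above polynomial
-/

set_option autoImplicit false

namespace Pool.Agent.J6H49.KX

open Pool.Agent.NPC Pool.Agent.H628R3.RO Filter Pool.Agent.J6H49.OP Pool.Agent.J6H49.IP
open Pool.Agent.J6H54.RO
open Pool.Agent.H620R2.Gauge (SAlg IsPSPACE)
open Pool.Agent.H620R2.Gauge.CC (Acc cut)
open Pool.Agent.H622R2 (poly_pairBits)
open Pool.Agent.TH678.GC (join)
open Pool.Agent.TH678.RS (bt)
open Pool.Agent.Y626.WX (Cp cod agree_emb)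
open Pool.Agent.J6H49.PHC (oracle)
open Pool.Agent.J6H49.ES (pin pin_inj length_pin p_pin Superpoly rt rt_pow u_rt)
open Pool.Agent.J6H49.KW (tp length_tp tp_congr pairBits_inj acc_iff XX mem_XX)

/-- The problem `L` is decided in unambiguous nondeterministic time `N(n) ^ O(1)` relative to `B`: for
some constant `c`, the input `x`, padded with `N |x| ^ c` ones, is decided in `UP`. -/
def InUTimePow (N : ℕ → ℕ) (B : Oracle) (L : Set (List Bool)) : Prop :=
  ∃ (c : ℕ) (L' : Set (List Bool)), IsUP B L' ∧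
    ∀ x : List Bool, x ∈ L ↔ pairBits x (List.replicate (N x.length ^ c) true) ∈ L'

section

variable {g : ℕ → SAlg × Polynomial ℕ} {S : ℕ → Polynomial ℕ} {Φ : Oracle → Oracle}
  {α : ℕ → ℕ} {C A : Oracle} {t : ℕ → ℕ} {T : ℕ → Bool} {Z : ℕ → ℕ → ℕ → Bool}

theorem OO_code (hc : Cp g S (bt α) Φ) {e i : ℕ} {w x : List Bool} {b : Bool}
    {N : ℕ × ℕ × ℕ} :
    OO hc C A t T Z ([false, true, true, false] ++ pos e i (pairBits w (b :: pin x N))) = true ↔
      w = tp T i ∧ (S e).eval (pin x N).length ≤ i ∧ t x.length ≤ i ∧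
        (b = true ↔ Acc (g e).1 (cut ((S e).eval (pin x N).length) (OO hc C A t T Z))
          (pin x N)) := by
  show DD hc C A t T Z (false :: pos e i (pairBits w (b :: pin x N))) = true ↔ _
  rw [DD_iff]
  constructor
  · rintro ⟨i', ⟨e', x', N', b', h1, h2⟩ | ⟨a, b', h1, h2⟩⟩
    · obtain ⟨h3, h4, h5⟩ := pos_inj (List.cons_injective h1)
      obtain ⟨h6, h7⟩ := pairBits_inj h5
      obtain ⟨h8, h9⟩ := List.cons_eq_cons.1 h7
      obtain ⟨h10, h11⟩ := pin_inj h9
      subst h3 h4 h6 h8 h10 h11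
      exact ⟨rfl, h2⟩
    · simp at h1
  · rintro ⟨rfl, h⟩
    exact ⟨i, Or.inl ⟨e, x, N, b, rfl, h⟩⟩

theorem OO_reg (hc : Cp g S (bt α) Φ) {w x : List Bool} :
    OO hc C A t T Z ([false, true, true, true] ++ pairBits w x) = true ↔
      ∃ a b i, w = tp T i ∧ x = pos a b (List.replicate i true) ∧ Z a b i = true := by
  show DD hc C A t T Z (true :: pairBits w x) = true ↔ _
  rw [DD_iff]
  constructor
  · rintro ⟨i', ⟨e', x', N', b', h1, h2⟩ | ⟨a, b', h1, h2⟩⟩
    · simp at h1
    · obtain ⟨h3, h4⟩ := pairBits_inj (List.cons_injective h1)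
      exact ⟨a, b', i', h3, h4, h2⟩
  · rintro ⟨a, b, i, rfl, rfl, h⟩
    exact ⟨i, Or.inr ⟨a, b, rfl, h⟩⟩

/-- **The codes tell the truth.** -/
theorem code (hg : Function.Surjective g) (hc : Cp g S (bt α) Φ) {L : Set (List Bool)}
    (hL : IsPSPACE (OO hc C A t T Z) L) :
    ∃ e : ℕ, ∀ (x w : List Bool) (N : ℕ × ℕ × ℕ) (i : ℕ) (b : Bool),
      OO hc C A t T Z ([false, true, true, false] ++ pos e i (pairBits w (b :: pin x N))) = true ↔
        w = tp T i ∧ (S e).eval (pin x N).length ≤ i ∧ t x.length ≤ i ∧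
          (b = true ↔ pin x N ∈ L) := by
  obtain ⟨M, p, hM⟩ := hL
  obtain ⟨e, he⟩ := hg (M, p)
  refine ⟨e, fun x w N i b => ?_⟩
  rw [OO_code hc, acc_iff hc he (pin x N) (hM _)]

/-- the question about `z`, with the witness `w` -/
noncomputable def qz (e c D : ℕ) (b : Bool) (z w : List Bool) : List Bool :=
  [false, true, true, false] ++ pos e (unpair z).2.length (pairBits w
    (b :: pin (unpair z).1 (0, 0, min (rt D (unpair z).2.length ^ c) z.length)))

theorem p_qz (e c D : ℕ) (b : Bool) {β : Type} [TEnc β] {z w : β → List Bool} (hz : Poly z)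
    (hw : Poly w) : Poly (fun a => qz e c D b (z a) (w a)) := by
  have h1 : Poly (fun a => (unpair (z a)).1) := Poly.fst (poly_unpair.comp hz)
  have h2 : Poly (fun a => (unpair (z a)).2) := Poly.snd (poly_unpair.comp hz)
  have h3 : UPoly (fun a => rt D (unpair (z a)).2.length ^ c) := by
    have h := UPoly.eval (u_rt (UPoly.length h2) D) (Polynomial.X ^ c)
    simpa using h
  exact Poly.append (NPC.Poly.const _) (p_pos (UPoly.const e) (UPoly.length h2)
    (poly_pairBits hw (Poly.cons (NPC.Poly.const b)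
      (p_pin h1 (UPoly.const 0) (UPoly.const 0) (u_min h3 (UPoly.length hz))))))

theorem isUP_qz (hg : Function.Surjective g) (hc : Cp g S (bt α) Φ) {L : Set (List Bool)}
    {e : ℕ} (he : ∀ (x w : List Bool) (N : ℕ × ℕ × ℕ) (i : ℕ) (b : Bool),
      OO hc C A t T Z ([false, true, true, false] ++ pos e i (pairBits w (b :: pin x N))) = true ↔
        w = tp T i ∧ (S e).eval (pin x N).length ≤ i ∧ t x.length ≤ i ∧
          (b = true ↔ pin x N ∈ L)) (c D : ℕ) (b : Bool) :
    IsUP (OO hc C A t T Z) {z | ∃ w, OO hc C A t T Z (qz e c D b z w) = true} := by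
  have hw : ∀ z w, OO hc C A t T Z (qz e c D b z w) = true →
      w = tp T (unpair z).2.length := fun z w h => ((he _ _ _ _ _).1 h).1
  refine ⟨fun z => [OO hc C A t T Z (qz e c D b (unpair z).1 (unpair z).2)],
    (Polynomial.X + 1) ^ 3, ?_, fun z => ?_, fun z w w' _ _ h1 h2 => ?_⟩
  · exact IsFP.tt (Q := fun z => [qz e c D b (unpair z).1 (unpair z).2]) (H := fun p => p.2)
      (Poly.cons (p_qz e c D b (Poly.fst poly_unpair) (Poly.snd poly_unpair))
        (NPC.Poly.const [])) (Poly.snd Poly.id)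
  · constructor
    · rintro ⟨w, h⟩
      refine ⟨w, ?_, ?_⟩
      · rw [hw z w h, length_tp]
        simp only [Polynomial.eval_pow, Polynomial.eval_add, Polynomial.eval_X,
          Polynomial.eval_one]
        refine Nat.pow_le_pow_left ?_ 3
        have h3 : (unpair z).2.length ≤ z.length := Pool.Agent.H620R2.Gauge.V8.unpair_snd_len z
        omega
      · simp only [unpair_pairBits]
        rw [h]
    · rintro ⟨w, -, h⟩
      simp only [unpair_pairBits] at h
      rw [List.cons.injEq] at h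
      exact ⟨w, h.1⟩
  · simp only [unpair_pairBits] at h1 h2
    rw [List.cons.injEq] at h1 h2
    rw [hw z w h1.1, hw z w' h2.1]

/-- **Space is contained in unambiguous time.** -/
theorem inU (hg : Function.Surjective g) (hc : Cp g S (bt α) Φ) {N : ℕ → ℕ}
    (hN : ∀ n, n + 2 ≤ N n) (hN' : ∀ᶠ n in atTop, t n ≤ N n) {L : Set (List Bool)}
    (hL : InSpace N (OO hc C A t T Z) L) (b : Bool) :
    InUTimePow N (OO hc C A t T Z) {x | b = true ↔ x ∈ L} := by
  obtain ⟨c, L', hL', hx⟩ := hL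
  have hp : Poly (fun y : List Bool => pairBits (unpair y).1 ((unpair y).2.drop 2)) :=
    poly_pairBits (Poly.fst poly_unpair) (p_drop (Poly.snd poly_unpair) (UPoly.const 2))
  obtain ⟨e, he⟩ := code hg hc (hL'.precomp hp)
  obtain ⟨d, hd1, hd⟩ := Pool.Agent.H622R2.Exp.YAux.poly_bound (S e)
  obtain ⟨n₀, hn₀⟩ := eventually_atTop.1 hN'
  set K := ∑ n ∈ Finset.range n₀, t n with hK
  set D := c + (c + 3) * d + K + 1 with hD
  refine ⟨D, _, isUP_qz hg hc he c D b, fun x => ?_⟩
  show _ ↔ ∃ w, OO hc C A t T Z (qz e c D b _ w) = true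
  unfold qz
  simp only [unpair_pairBits, List.length_replicate]
  set n := x.length with hn
  have hNn := hN n
  have hD0 : D ≠ 0 := by omega
  rw [rt_pow hD0, min_eq_left]
  swap
  · rw [length_pairBits, List.length_replicate]
    have : N n ^ c ≤ N n ^ D := Nat.pow_le_pow_right (by omega) (by omega)
    omega
  have h1 : (pin x (0, 0, N n ^ c)).length + 2 ≤ N n ^ (c + 3) := by
    rw [length_pin, ← hn]
    show 2 * n + 1 + (0 + 0 + N n ^ c + 2) + 2 ≤ N n ^ (c + 3)
    have e1 : N n ^ (c + 3) = N n ^ c * (N n * (N n * N n)) := by ring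
    rw [e1]
    have h3 : 1 ≤ N n ^ c := Nat.one_le_pow _ _ (by omega)
    obtain ⟨b, hb⟩ : ∃ b, N n ^ c = b + 1 := ⟨N n ^ c - 1, by omega⟩
    rw [hb]
    have h4 : 2 * N n ≤ N n * N n := Nat.mul_le_mul_right _ (by omega)
    have h5 : 2 * (N n * N n) ≤ N n * (N n * N n) := Nat.mul_le_mul_right _ (by omega)
    have h6 : (b + 1) * (N n * (N n * N n)) = b * (N n * (N n * N n)) + N n * (N n * N n) := by
      ring
    have h7 : b ≤ b * (N n * (N n * N n)) := Nat.le_mul_of_pos_right _
      (Nat.mul_pos (by omega) (Nat.mul_pos (by omega) (by omega)))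
    omega
  have h2 : (S e).eval (pin x (0, 0, N n ^ c)).length ≤ N n ^ D := by
    calc (S e).eval (pin x (0, 0, N n ^ c)).length ≤
        ((pin x (0, 0, N n ^ c)).length + 2) ^ d := hd _
      _ ≤ (N n ^ (c + 3)) ^ d := Nat.pow_le_pow_left h1 d
      _ = N n ^ ((c + 3) * d) := by rw [← pow_mul]
      _ ≤ N n ^ D := Nat.pow_le_pow_right (by omega) (by omega)
  have h3 : t n ≤ N n ^ D := by
    rcases le_or_gt n₀ n with h | h
    · exact (hn₀ n h).trans (Nat.le_self_pow hD0 _)
    · have h4 : t n ≤ K := Finset.single_le_sum (f := fun n => t n)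
        (fun _ _ => Nat.zero_le _) (Finset.mem_range.2 h)
      calc t n ≤ K := h4
        _ ≤ 2 ^ K := Nat.lt_two_pow_self.le
        _ ≤ N n ^ K := Nat.pow_le_pow_left (by omega) _
        _ ≤ N n ^ D := Nat.pow_le_pow_right (by omega) (by omega)
  simp only [he]
  have h4 : (pin x (0, 0, N n ^ c) ∈ {y : List Bool |
      pairBits (unpair y).1 ((unpair y).2.drop 2) ∈ L'}) ↔ x ∈ L := by
    rw [hx x]
    show pairBits (unpair (pin x (0, 0, N n ^ c))).1
      ((unpair (pin x (0, 0, N n ^ c))).2.drop 2) ∈ L' ↔ _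
    unfold pin
    rw [unpair_pairBits]
    rfl
  constructor
  · intro h5
    exact ⟨_, rfl, h2, h3, (show b = true ↔ x ∈ L from h5).trans h4.symm⟩
  · rintro ⟨w, -, -, -, h5⟩
    exact h5.trans h4

theorem inU_both (hg : Function.Surjective g) (hc : Cp g S (bt α) Φ) {N : ℕ → ℕ}
    (hN : ∀ n, n + 2 ≤ N n) (hN' : ∀ᶠ n in atTop, t n ≤ N n) {L : Set (List Bool)}
    (hL : InSpace N (OO hc C A t T Z) L) :
    InUTimePow N (OO hc C A t T Z) L ∧ InUTimePow N (OO hc C A t T Z) Lᶜ := by
  constructor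
  · have h := inU hg hc hN hN' hL true
    have e1 : {x : List Bool | true = true ↔ x ∈ L} = L := by
      ext x
      simp
    rwa [e1] at h
  · have h := inU hg hc hN hN' hL false
    have e1 : {x : List Bool | false = true ↔ x ∈ L} = Lᶜ := by
      ext x
      simp
    rwa [e1] at h

theorem isNP_XX (hc : Cp g S (bt α) Φ) : IsNP (OO hc C A t T Z) (XX Z) := by
  refine ⟨fun z => [OO hc C A t T Z ([false, true, true, true] ++
    pairBits (unpair z).2 (unpair z).1)], (Polynomial.X + 1) ^ 3, ?_, fun x => ?_⟩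
  · exact IsFP.tt (Q := fun z => [[false, true, true, true] ++
      pairBits (unpair z).2 (unpair z).1]) (H := fun p => p.2)
      (Poly.cons (Poly.append (NPC.Poly.const _)
        (poly_pairBits (Poly.snd poly_unpair) (Poly.fst poly_unpair))) (NPC.Poly.const []))
      (Poly.snd Poly.id)
  · constructor
    · rintro ⟨a, b, i, rfl, h⟩
      refine ⟨tp T i, ?_, ?_⟩
      · rw [length_tp, length_pos, List.length_replicate]
        simp only [Polynomial.eval_pow, Polynomial.eval_add, Polynomial.eval_X,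
          Polynomial.eval_one]
        exact Nat.pow_le_pow_left (by omega) 3
      · simp only [unpair_pairBits]
        rw [(OO_reg hc).2 ⟨a, b, i, rfl, rfl, h⟩]
    · rintro ⟨w, -, hw⟩
      simp only [unpair_pairBits] at hw
      rw [List.cons.injEq, OO_reg hc] at hw
      obtain ⟨⟨a, b, i, -, h1, h2⟩, -⟩ := hw
      exact ⟨a, b, i, h1, h2⟩

end

end Pool.Agent.J6H49.KX
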