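import Pool.Agent.J6H49.KX.Class

/-!
# The table has subexponential density
-/

set_option autoImplicit false

namespace Pool.Agent.J6H49.KX

open Pool.Agent.NPC Pool.Agent.H628R3.RO Filter Pool.Agent.J6H49.OP Pool.Agent.J6H49.IP
open Pool.Agent.J6H54.RO
open Pool.Agent.H620R2.Gauge (SAlg IsPSPACE)
open Pool.Agent.TH678.RS (bt)
open Pool.Agent.Y626.WX (Cp)
open Pool.Agent.J6H49.ES (pin length_pin Superpoly)
open Pool.Agent.J6H49.KW (tp length_tp)

open Classical in
/-- a finite set with the true entries of length at most `m` for inputs of length at most `l` -/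
noncomputable def box (T : ℕ → Bool) (m l : ℕ) : Finset (List Bool) :=
  (((Finset.range (m + 1) ×ˢ Finset.range (m + 1)) ×ˢ
    ((Finset.range (m + 1) ×ˢ (Finset.range (m + 1) ×ˢ Finset.range (m + 1))) ×ˢ
      ((Finset.univ : Finset Bool) ×ˢ (strs l).toFinset))).image fun q =>
        false :: pos q.1.1 q.1.2 (pairBits (tp T q.1.2) (q.2.2.1 :: pin q.2.2.2 q.2.1))) ∪
  ((Finset.range (m + 1) ×ˢ (Finset.range (m + 1) ×ˢ Finset.range (m + 1))).image fun q =>
    true :: pairBits (tp T q.2.2) (pos q.1 q.2.1 (List.replicate q.2.2 true)))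

theorem card_box (T : ℕ → Bool) (m l : ℕ) : (box T m l).card ≤ (m + 1) ^ 5 * 2 ^ (l + 3) := by
  classical
  unfold box
  refine (Finset.card_union_le _ _).trans ?_
  refine (Nat.add_le_add Finset.card_image_le Finset.card_image_le).trans ?_
  rw [Finset.card_product, Finset.card_product, Finset.card_product, Finset.card_product,
    Finset.card_product, Finset.card_product, Finset.card_range, Finset.card_univ,
    Fintype.card_bool]
  have h1 : ((strs l).toFinset).card ≤ 2 ^ (l + 1) := by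
    have := List.toFinset_card_le (strs l)
    have := length_strs l
    omega
  have h2 : (m + 1) * ((m + 1) * (m + 1)) ≤ (m + 1) ^ 5 * 2 ^ (l + 1) := by
    calc (m + 1) * ((m + 1) * (m + 1)) = (m + 1) ^ 3 := by ring
      _ ≤ (m + 1) ^ 5 := Nat.pow_le_pow_right (by omega) (by omega)
      _ ≤ (m + 1) ^ 5 * 2 ^ (l + 1) := Nat.le_mul_of_pos_right _ (by positivity)
  have h3 : (m + 1) * (m + 1) * ((m + 1) * ((m + 1) * (m + 1)) * (2 * ((strs l).toFinset).card)) ≤
      2 * ((m + 1) ^ 5 * 2 ^ (l + 1)) := by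
    calc (m + 1) * (m + 1) * ((m + 1) * ((m + 1) * (m + 1)) * (2 * ((strs l).toFinset).card)) ≤
        (m + 1) * (m + 1) * ((m + 1) * ((m + 1) * (m + 1)) * (2 * 2 ^ (l + 1))) := by gcongr
      _ = _ := by ring
  have h4 : (m + 1) ^ 5 * 2 ^ (l + 3) = 4 * ((m + 1) ^ 5 * 2 ^ (l + 1)) := by
    rw [show l + 3 = l + 1 + 2 by omega, pow_add 2 (l + 1) 2]
    ring
  omega

variable {g : ℕ → SAlg × Polynomial ℕ} {S : ℕ → Polynomial ℕ} {Φ : Oracle → Oracle}
  {α : ℕ → ℕ} {C A : Oracle} {t : ℕ → ℕ} {T : ℕ → Bool} {Z : ℕ → ℕ → ℕ → Bool}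

/-- **The table has subexponential density.** -/
theorem DD_dense (hc : Cp g S (bt α) Φ) (ht : Superpoly t) : SubexpDense (DD hc C A t T Z) := by
  classical
  intro k
  obtain ⟨l₀, hl₀⟩ := eventually_atTop.1 (ht (2 * (k + 1)))
  obtain ⟨n₀, hn₀⟩ := poly_le_two_pow ((Polynomial.X ^ k + 1) ^ 10)
  filter_upwards [eventually_ge_atTop (l₀ * l₀ + n₀ + 144)] with n hn
  have hl : l₀ ≤ Nat.sqrt n := Nat.le_sqrt.2 (by omega)
  have hsub : {x : List Bool | x.length ≤ n ^ k ∧ DD hc C A t T Z x = true} ⊆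
      (box T (n ^ k) (Nat.sqrt n) : Set (List Bool)) := by
    rintro u ⟨hu1, hu2⟩
    obtain ⟨i, ⟨e, x, N, b, rfl, h1, h2, -⟩ | ⟨a, b, rfl, -⟩⟩ := (DD_iff hc).1 hu2
    · rw [List.length_cons, length_pos, length_pairBits, List.length_cons, length_pin] at hu1
      have hx : x.length ≤ Nat.sqrt n := by
        rcases le_total x.length l₀ with h3 | h3
        · exact h3.trans hl
        · rw [Nat.le_sqrt]
          by_contra hcon
          push Not at hcon
          have h4 := hl₀ _ h3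
          have h5 : n ^ (k + 1) < x.length ^ (2 * (k + 1)) := by
            rw [pow_mul, pow_two]
            exact Nat.pow_lt_pow_left hcon (by omega)
          have h6 : n ^ k ≤ n ^ (k + 1) := Nat.pow_le_pow_right (by omega) (by omega)
          omega
      unfold box
      rw [Finset.coe_union]
      refine Or.inl ?_
      rw [Finset.mem_coe, Finset.mem_image]
      refine ⟨((e, i), (N, (b, x))), ?_, rfl⟩
      simp only [Finset.mem_product, Finset.mem_range, List.mem_toFinset, mem_strs,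
        Finset.mem_univ, true_and]
      refine ⟨⟨?_, ?_⟩, ⟨?_, ?_, ?_⟩, hx⟩ <;> omega
    · rw [List.length_cons, length_pairBits, length_pos, List.length_replicate] at hu1
      unfold box
      rw [Finset.coe_union]
      refine Or.inr ?_
      rw [Finset.mem_coe, Finset.mem_image]
      refine ⟨(a, (b, i)), ?_, rfl⟩
      simp only [Finset.mem_product, Finset.mem_range]
      refine ⟨?_, ?_, ?_⟩ <;> omega
  refine (Set.ncard_le_ncard hsub (Finset.finite_toSet _)).trans ?_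
  rw [Set.ncard_coe_finset]
  refine (card_box _ _ _).trans ?_
  have h7 := hn₀ n (by omega)
  simp only [Polynomial.eval_pow, Polynomial.eval_add, Polynomial.eval_X,
    Polynomial.eval_one] at h7
  have h8 : (n ^ k + 1) ^ 5 * ((n ^ k + 1) ^ 5) ≤ 2 ^ n := by
    calc (n ^ k + 1) ^ 5 * ((n ^ k + 1) ^ 5) = (n ^ k + 1) ^ 10 := by ring
      _ ≤ 2 ^ n := by omega
  have h9 : 2 ^ (Nat.sqrt n + 3) * 2 ^ (Nat.sqrt n + 3) ≤ 2 ^ n := by
    rw [← pow_add]
    apply Nat.pow_le_pow_right (by norm_num)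
    have h10 : Nat.sqrt n * Nat.sqrt n ≤ n := Nat.sqrt_le n
    have h11 : 12 ≤ Nat.sqrt n := Nat.le_sqrt.2 (by omega)
    nlinarith
  by_contra hcon
  push Not at hcon
  have h12 : 2 ^ n * 2 ^ n < ((n ^ k + 1) ^ 5 * 2 ^ (Nat.sqrt n + 3)) *
      ((n ^ k + 1) ^ 5 * 2 ^ (Nat.sqrt n + 3)) := Nat.mul_lt_mul'' hcon hcon
  have h13 : ((n ^ k + 1) ^ 5 * 2 ^ (Nat.sqrt n + 3)) *
      ((n ^ k + 1) ^ 5 * 2 ^ (Nat.sqrt n + 3)) ≤ 2 ^ n * 2 ^ n := by
    calc _ = ((n ^ k + 1) ^ 5 * ((n ^ k + 1) ^ 5)) *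
          (2 ^ (Nat.sqrt n + 3) * 2 ^ (Nat.sqrt n + 3)) := by ring
      _ ≤ _ := Nat.mul_le_mul h8 h9
  omega

end Pool.Agent.J6H49.KX
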