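import Pool.Agent.J6H49.KX.Dense
import Pool.Agent.J6H49.KW.POpt
import Pool.Agent.J6H49.ES.World

/-!
# Unambiguous exponential time is exponential space, but not deterministic exponential time
-/

set_option autoImplicit false

namespace Pool.Agent.J6H49.KX

open Pool.Agent.NPC Pool.Agent.H628R3.RO Filter Pool.Agent.J6H49.OP Pool.Agent.J6H49.IP
open MeasureTheory Pool.Agent.J6H54.RO
open Pool.Agent.H620R2.Gauge (SAlg IsPSPACE)
open Pool.Agent.TH678.GC (join)
open Pool.Agent.TH678.RS (bt)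
open Pool.Agent.Y626.WX (Cp cod exists_cp)
open Pool.Agent.J6H49.PHC (oracle far)
open Pool.Agent.J6H49.ES (Superpoly InTimePow)
open Pool.Agent.J6H49.KW

/-- **The diagonalization.** -/
theorem engine {g : ℕ → SAlg × Polynomial ℕ} {S : ℕ → Polynomial ℕ} {Φ : Oracle → Oracle}
    {α : ℕ → ℕ} (hc : Cp g S (bt α) Φ) (hα : Monotone α) (hα' : Tendsto α atTop atTop)
    (C A : Oracle) (t : ℕ → ℕ) {I : Set ℕ}
    (hI : ∃ᶠ n in atTop, n ∈ I) {τ : ℕ → ℕ → Oracle → List Bool → Prop}
    (hτ : ∀ a b, IsTest (τ a b)) :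
    ∃ (T : ℕ → Bool) (Z : ℕ → ℕ → ℕ → Bool),
      (∀ a b n, xs a b n ∉ XX Z → τ a b (OO hc C A t T Z) (xs a b n)) ∧
      ∀ a b, ∃ᶠ n in atTop, n ∈ I ∧
        (τ a b (OO hc C A t T Z) (xs a b n) → xs a b n ∉ XX Z) := by
  classical
  obtain ⟨N, hN⟩ := exists_good (f := id) hα hα' tendsto_id hI
  choose p hp using hτ
  obtain ⟨σ, hσ⟩ := exists_seq (((fun _ => 0), fun _ _ => true) : Dt)
    (fun j σ => (exists_stage hN hp j (OL hc C A t (TT N σ) (ZZ N σ) (N j))).choose) (by
      intro j σ σ' h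
      have h1 := OL_congr (C := C) (A := A) (t := t) hc (TT_congr hN h) (ZZ_congr hN h)
      congr 2)
  set T := TT N σ with hT
  set Z := ZZ N σ with hZ
  set O := OO hc C A t T Z with hO
  have hst : ∀ j, StOK τ p N j (OL hc C A t T Z (N j)) (σ j) := by
    intro j
    rw [hσ j]
    exact (exists_stage hN hp j (OL hc C A t (TT N σ) (ZZ N σ) (N j))).choose_spec
  have hZj : ∀ a b j, Z a b (N j) = true ↔ (σ j).2 a b = true := by
    intro a b j
    rw [hZ]
    unfold ZZ
    rw [decide_eq_true_eq]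
    constructor
    · exact fun h => h j rfl
    · intro h j' hj'
      rw [← hN.mono.injective hj']
      exact h
  have htest : ∀ a b j, OKs p N j a b →
      (τ a b O (xs a b (N j)) ↔ τ a b (OL hc C A t T Z (N j)) (xs a b (N j))) := by
    intro a b j hab
    obtain ⟨Q, hQ1, hQ2, hQ3⟩ := (hst j).2.2 a b hab
    refine hQ3 O fun q hq => ?_
    rw [hO]
    refine OO_eq hc (R := N j ^ j) (fun s hs => hN.far j s hs) (hQ1 q hq) ?_
    intro i hi _ hprot
    exact hQ2 q hq ⟨_, hprot, enc_tp hN (fun j' k => (hst j').1 k) hi⟩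
  have hmem : ∀ a b n, xs a b n ∈ XX Z ↔ Z a b n = true := fun a b n => mem_XX
  refine ⟨T, Z, ?_, ?_⟩
  · intro a b n hx
    rw [hmem] at hx
    by_cases hn : ∃ j, n = N j
    · obtain ⟨j, rfl⟩ := hn
      rw [hZj, (hst j).2.1 a b, not_not] at hx
      exact (htest a b j hx.1).2 hx.2
    · exfalso
      apply hx
      rw [hZ]
      unfold ZZ
      rw [decide_eq_true_eq]
      exact fun j hj => absurd ⟨j, hj⟩ hn
  · intro a b
    have h1 := ev_ok hN p a b
    rw [frequently_atTop]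
    intro m
    obtain ⟨j, hj1, hj2⟩ := (h1.and (eventually_ge_atTop m)).exists
    have := hN.ge j
    refine ⟨N j, by omega, hN.mem j, fun h2 => ?_⟩
    rw [hmem, hZj, (hst j).2.1 a b, not_not]
    exact ⟨hj1, (htest a b j hj1).1 h2⟩

/-- the functions `2 ^ (n + 1)` and `2 ^ (2 ^ (n + 1))` -/
def NN (s : Bool) (n : ℕ) : ℕ := if s then 2 ^ 2 ^ (n + 1) else 2 ^ (n + 1)

theorem NN_inj {s : Bool} {m n : ℕ} (h : NN s m = NN s n) : m = n := by
  cases s
  · have h1 : 2 ^ (m + 1) = 2 ^ (n + 1) := h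
    have := Nat.pow_right_injective (le_refl 2) h1
    omega
  · have h1 : 2 ^ 2 ^ (m + 1) = 2 ^ 2 ^ (n + 1) := h
    have h2 := Nat.pow_right_injective (le_refl 2) h1
    have := Nat.pow_right_injective (le_refl 2) h2
    omega

theorem le_NN (s : Bool) (n : ℕ) : n + 1 < NN s n := by
  have h1 : n + 1 < 2 ^ (n + 1) := Nat.lt_two_pow_self
  have h2 : 2 ^ (n + 1) < 2 ^ 2 ^ (n + 1) := Nat.lt_two_pow_self
  cases s
  · exact h1
  · exact h1.trans h2

/-- the lengths used -/
def II : Set ℕ := {n | ∃ k, n = 2 ^ 2 ^ (k + 1)}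

theorem II_freq : ∃ᶠ n in atTop, n ∈ II := by
  rw [frequently_atTop]
  intro m
  have h1 : m + 1 < 2 ^ (m + 1) := Nat.lt_two_pow_self
  have h2 : 2 ^ (m + 1) < 2 ^ 2 ^ (m + 1) := Nat.lt_two_pow_self
  exact ⟨2 ^ 2 ^ (m + 1), by omega, m, rfl⟩

/-- every large number in `II` is a value -/
theorem II_NN (s : Bool) (a n : ℕ) (hn : n ∈ II) (hna : 2 ^ 2 ^ (a + 3) ≤ n) :
    ∃ m, n = NN s (a + 0 + m + 2) := by
  obtain ⟨k, rfl⟩ := hn
  have h1 : a + 3 ≤ k + 1 := by
    have h2 := (Nat.pow_le_pow_iff_right (le_refl 2)).1 hna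
    exact (Nat.pow_le_pow_iff_right (le_refl 2)).1 h2
  cases s
  · have h2 : k + 1 < 2 ^ (k + 1) := Nat.lt_two_pow_self
    refine ⟨2 ^ (k + 1) - 1 - (a + 2), ?_⟩
    show _ = 2 ^ (a + 0 + (2 ^ (k + 1) - 1 - (a + 2)) + 2 + 1)
    congr 1
    omega
  · refine ⟨k - (a + 2), ?_⟩
    show _ = 2 ^ 2 ^ (a + 0 + (k - (a + 2)) + 2 + 1)
    congr 2
    omega

/-- the algorithm accepts the padded input -/
def tE (q : Alg × ℕ × Bool) (a b : ℕ) (B : Oracle) (x : List Bool) : Prop :=
  ∃ m, x = xs a b (NN q.2.2 (a + b + m + 2)) ∧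
    q.1.out B (pairBits (xs a b m)
      (List.replicate (NN q.2.2 (a + b + m + 2) ^ q.2.1) true)) = some [true]

theorem xs_inj {a b n a' b' n' : ℕ} (h : xs a b n = xs a' b' n') : a = a' ∧ b = b' ∧ n = n' := by
  unfold xs at h
  obtain ⟨h1, h2, h3⟩ := pos_inj h
  have h4 := congrArg List.length h3
  rw [List.length_replicate, List.length_replicate] at h4
  exact ⟨h1, h2, h4⟩

theorem isTest_E (q : Alg × ℕ × Bool) (a b : ℕ) : IsTest (tE q a b) := by
  classical
  obtain ⟨M, c, s⟩ := q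
  refine ⟨(M.p + qb M).comp (2 * Polynomial.X + 1 + Polynomial.X ^ c), fun B x => ?_⟩
  have hev : ((M.p + qb M).comp (2 * Polynomial.X + 1 + Polynomial.X ^ c)).eval x.length =
      M.p.eval (2 * x.length + 1 + x.length ^ c) +
        (qb M).eval (2 * x.length + 1 + x.length ^ c) := by
    simp only [Polynomial.eval_comp, Polynomial.eval_add, Polynomial.eval_mul, Polynomial.eval_X,
      Polynomial.eval_one, Polynomial.eval_ofNat, Polynomial.eval_pow]
  rw [hev]
  by_cases hx : ∃ m, x = xs a b (NN s (a + b + m + 2))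
  · obtain ⟨m, hm⟩ := hx
    set y := pairBits (xs a b m) (List.replicate (NN s (a + b + m + 2) ^ c) true) with hy
    obtain ⟨Q, h1, h2, h3⟩ := qb_spec M B y
    have hlen : y.length ≤ 2 * x.length + 1 + x.length ^ c := by
      rw [hy, length_pairBits, List.length_replicate, hm, length_xs, length_xs]
      have h4 := le_NN s (a + b + m + 2)
      have h5 : NN s (a + b + m + 2) ^ c ≤ (a + b + NN s (a + b + m + 2) + 2) ^ c :=
        Nat.pow_le_pow_left (by omega) c
      omega
    have e1 : M.p.eval y.length ≤ M.p.eval (2 * x.length + 1 + x.length ^ c) := eval_mono _ hlen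
    have e2 : (qb M).eval y.length ≤ (qb M).eval (2 * x.length + 1 + x.length ^ c) :=
      eval_mono _ hlen
    have key : ∀ B', tE (M, c, s) a b B' x ↔ M.out B' y = some [true] := by
      intro B'
      constructor
      · rintro ⟨m', hm', h4⟩
        dsimp only at hm' h4
        rw [hm] at hm'
        obtain ⟨-, -, h5⟩ := xs_inj hm'
        have h6 := NN_inj h5
        have h7 : m' = m := by omega
        subst h7
        exact h4
      · exact fun h => ⟨m, hm, h⟩
    refine ⟨Q, by omega, fun q hq => (h2 q hq).trans (by omega), fun B' hB' => ?_⟩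
    rw [key, key, h3 B' hB']
  · refine ⟨∅, by simp, by simp, fun B' _ => ?_⟩
    constructor
    · rintro ⟨m, hm, -⟩
      exact absurd ⟨m, hm⟩ hx
    · rintro ⟨m, hm, -⟩
      exact absurd ⟨m, hm⟩ hx

/-- the language at the exponential level -/
def LE (s : Bool) (Z : ℕ → ℕ → ℕ → Bool) : Set (List Bool) :=
  {u | ∃ a b m, u = xs a b m ∧ xs a b (NN s (a + b + m + 2)) ∈ XX Z}

/-- the string is of the form `xs a b m` -/
def isxx (u : List Bool) : Bool :=
  decide (u = pos (lvl u) (lvl (u.drop (lvl u + 1)))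
    (List.replicate (u.length - (lvl u + lvl (u.drop (lvl u + 1)) + 2)) true))

theorem lvl_xs (a b m : ℕ) : lvl (xs a b m) = a ∧ lvl ((xs a b m).drop (a + 1)) = b := by
  constructor
  · exact lvl_replicate a _
  · have h1 : (xs a b m).drop (a + 1) = List.replicate b true ++ false :: List.replicate m true := by
      unfold xs pos
      rw [List.drop_append, List.length_replicate]
      simp
    rw [h1]
    exact lvl_replicate b _

theorem isxx_iff {u : List Bool} : isxx u = true ↔ ∃ a b m, u = xs a b m := by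
  unfold isxx
  rw [decide_eq_true_eq]
  constructor
  · intro h
    exact ⟨_, _, _, h⟩
  · rintro ⟨a, b, m, rfl⟩
    obtain ⟨h1, h2⟩ := lvl_xs a b m
    rw [h1, h2, length_xs]
    have h3 : a + b + m + 2 - (a + b + 2) = m := by omega
    rw [h3]
    rfl

/-- from the padded input -/
def phi (z : List Bool) : List Bool :=
  if isxx (unpair z).1 = true then pos (lvl (unpair z).1)
    (lvl ((unpair z).1.drop (lvl (unpair z).1 + 1)))
    (List.replicate (unpair z).2.length true) else []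

theorem p_phi : Poly phi := by
  have h1 : Poly (fun z : List Bool => (unpair z).1) := Poly.fst poly_unpair
  have h2 : Poly (fun z : List Bool => (unpair z).2) := Poly.snd poly_unpair
  have h3 : UPoly (fun z : List Bool => lvl (unpair z).1) := u_lvl h1
  have h4 : UPoly (fun z : List Bool => lvl (unpair z).1 + 1) := by
    have h := UPoly.eval h3 (Polynomial.X + 1)
    simpa using h
  have h5 : UPoly (fun z : List Bool => lvl ((unpair z).1.drop (lvl (unpair z).1 + 1))) :=
    u_lvl (p_drop h1 h4)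
  have h6 : UPoly (fun z : List Bool => (unpair z).1.length -
      (lvl (unpair z).1 + lvl ((unpair z).1.drop (lvl (unpair z).1 + 1)) + 2)) := by
    refine UPoly.of_le (Poly.sub (Poly.length h1) (Poly.add (Poly.add h3.toPoly
      h5.toPoly) (NPC.Poly.const 2))) (UPoly.length h1) fun y => Nat.sub_le _ _
  have h7 : Poly (fun z : List Bool => isxx (unpair z).1) :=
    Poly.decide_eq h1 (p_pos h3 h5 (p_replicate h6 true))
  exact Poly.ite (h7.congr fun z => by simp) (p_pos h3 h5 (p_replicate (UPoly.length h2) true))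
    (NPC.Poly.const _)

theorem nil_notMem (Z : ℕ → ℕ → ℕ → Bool) : ([] : List Bool) ∉ XX Z := by
  rintro ⟨a, b, i, h, -⟩
  have h1 := congrArg List.length h
  rw [length_pos] at h1
  simp at h1

theorem phi_pad {u : List Bool} (Z : ℕ → ℕ → ℕ → Bool) (s : Bool) :
    u ∈ LE s Z ↔ phi (pairBits u (List.replicate (NN s u.length ^ 1) true)) ∈ XX Z := by
  unfold phi
  rw [unpair_pairBits, List.length_replicate, pow_one]
  by_cases h : isxx u = true
  · obtain ⟨a, b, m, rfl⟩ := isxx_iff.1 h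
    obtain ⟨h1, h2⟩ := lvl_xs a b m
    rw [if_pos h]
    dsimp only
    rw [h1, h2, length_xs]
    constructor
    · rintro ⟨a', b', m', h3, h4⟩
      obtain ⟨rfl, rfl, rfl⟩ := xs_inj h3
      exact h4
    · exact fun h3 => ⟨a, b, m, rfl, h3⟩
  · rw [if_neg h]
    constructor
    · rintro ⟨a, b, m, h3, -⟩
      exact absurd (isxx_iff.2 ⟨a, b, m, h3⟩) h
    · exact fun h3 => absurd h3 (nil_notMem Z)

theorem main (α : ℕ → ℕ) (hα : Monotone α) (hα' : Tendsto α atTop atTop) (t : ℕ → ℕ)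
    (ht : Superpoly t) (C : Oracle) :
    ∃ O : Oracle → Oracle,
      (∀ A, NearlyCollapsed α (O A) ∧ Contains (O A) A ∧ Contains (O A) C ∧
        (∀ N : ℕ → ℕ, (∀ n, n + 2 ≤ N n) → (∀ᶠ n in atTop, t n ≤ N n) →
          ∀ L, InSpace N (O A) L → InUTimePow N (O A) L ∧ InUTimePow N (O A) Lᶜ) ∧
        ∀ s, ∃ L, InSpace (NN s) (O A) L ∧ ¬ InTimePow (NN s) (O A) L) ∧
      ∀ᵐ A ∂randomOracle, ∃ L : Set (List Bool), IsCoNP (O A) L ∧
        ∀ T : Oracle, SubexpDense T → ¬ IsIPio (join (O A) T) L := by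
  classical
  obtain ⟨g, hg⟩ := Pool.Agent.H620R2.Gauge.CC.exists_enum
  obtain ⟨S, Φ, hc⟩ := exists_cp g (bt (slow2 α))
  have hne : Nonempty (Alg × ℕ × Bool) :=
    ⟨(⟨_, Pool.Agent.H620R2.Gauge.CC.const_polyTime [], 0⟩, 0, true)⟩
  obtain ⟨en, hen⟩ := exists_surjective_nat (Alg × ℕ × Bool)
  choose T Z h1 h2 using fun A : Oracle => engine hc (slow2_mono hα) (slow2_tendsto hα') C A t
    II_freq (τ := fun a b => tE (en a) a b) fun a b => isTest_E (en a) a b
  refine ⟨fun A => OO hc C A t (T A) (Z A), fun A => ⟨?_, ⟨[false, false], fun x => rfl⟩,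
    ⟨[false, true, false], fun x => rfl⟩, fun N hN hN' L hL => inU_both hg hc hN hN' hL,
    fun s => ⟨LE s (Z A), ?_, ?_⟩⟩, ?_⟩
  · exact nearly hg hα hc (join A (join C (DD hc C A t (T A) (Z A))))
  · refine ⟨1, {z | phi z ∈ XX (Z A)}, ?_, fun u => phi_pad (Z A) s⟩
    exact (Pool.Agent.J6H49.ES.isPSPACE_of_isNP (isNP_XX hc)).precomp p_phi
  · rintro ⟨c, L', ⟨V, ⟨M, hM⟩, hV⟩, hL'⟩
    obtain ⟨a, ha⟩ := hen (M, c, s)
    obtain ⟨n, ⟨hn1, hn2⟩, hn3⟩ := ((h2 A a 0).and_eventually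
      (eventually_ge_atTop (2 ^ 2 ^ (a + 3)))).exists
    obtain ⟨m, hm⟩ := II_NN s a n hn1 hn3
    have key : M.out (OO hc C A t (T A) (Z A)) (pairBits (xs a 0 m)
        (List.replicate (NN s (a + 0 + m + 2) ^ c) true)) = some [true] ↔
        xs a 0 n ∈ XX (Z A) := by
      rw [hM, Option.some.injEq, ← hV]
      have h3 := hL' (xs a 0 m)
      rw [length_xs] at h3
      rw [← h3, hm]
      constructor
      · rintro ⟨a', b', m', h4, h5⟩
        obtain ⟨rfl, rfl, rfl⟩ := xs_inj h4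
        exact h5
      · exact fun h4 => ⟨a, 0, m, rfl, h4⟩
    by_cases hx : xs a 0 n ∈ XX (Z A)
    · refine hn2 ⟨m, ?_, ?_⟩ hx
      · rw [ha, hm]
      · rw [ha]
        exact key.2 hx
    · obtain ⟨m', hm', h5⟩ := h1 A a 0 n hx
      rw [ha] at hm' h5
      dsimp only at hm' h5
      rw [hm] at hm'
      have h6 := NN_inj (xs_inj hm').2.2
      have h7 : m' = m := by omega
      subst h7
      exact hx (key.1 h5)
  · filter_upwards [ae_main2 hc (slow2_mono hα) (slow2_tendsto hα') C] with A hA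
    refine ⟨(HL A)ᶜ, ?_, fun T' hT' => hA (DD hc C A t (T A) (Z A)) T' (DD_dense hc ht) hT'⟩
    unfold IsCoNP
    rw [compl_compl]
    exact isNP_lift [false, false] (fun x => rfl) (isNP_HL A)

end Pool.Agent.J6H49.KX
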